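import Pool.Agent.Run7.h148.AX.Stm4

/-!
Project AX (helper148), piece TMN: `nl` of tame curves is tame (after helper793's `tameN`).
-/

set_option autoImplicit false

open MeasureTheory Set Filter Topology
open scoped ENNReal ContDiff FourierTransform

namespace Pool.Agent.Run7.h534.AX
open Pool.Agent.Run7.h148.AX

theorem wk_nw (k : ℕ) (ξ : E3) : wk k ξ * nw ξ ≤ wk (k + 1) ξ := by
  unfold wk nw
  rw [← ENNReal.ofReal_mul (by positivity)]
  refine ENNReal.ofReal_le_ofReal ?_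
  rw [pow_succ]
  exact mul_le_mul_of_nonneg_left (by linarith [norm_nonneg ξ]) (by positivity)

theorem wk_zero (ξ : E3) : wk 0 ξ = 1 := by simp [wk]

theorem t_TMN : S_NLB → S_NLM → S_CVM → S_WK1 → S_TMN := by
  intro hNLB hNLM _ hWK1 a b ha hb
  have hm : Measurable (Function.uncurry fun t ξ => nl (a t) (b t) ξ) := hNLM a b ha.1 hb.1
  refine ⟨hm, hm.enorm, ?_⟩
  intro k T
  obtain ⟨A0, a0⟩ := ha.2.2 0 T
  obtain ⟨A1, a1⟩ := ha.2.2 (k + 1) T
  obtain ⟨B0, b0⟩ := hb.2.2 0 T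
  obtain ⟨B1, b1⟩ := hb.2.2 (k + 1) T
  refine ⟨40 * (2 ^ (k + 1) * (A1 * B0 + A0 * B1)), fun t ht => ?_⟩
  have hmt : Measurable (nm a t) := (ha.1.comp measurable_prodMk_left).enorm
  have hmt' : Measurable (nm b t) := (hb.1.comp measurable_prodMk_left).enorm
  have wa : ∫⁻ ξ, nm a t ξ ≤ A0 := by simpa [wk_zero] using (a0 t ht).1
  have wb : ∫⁻ ξ, nm b t ξ ≤ B0 := by simpa [wk_zero] using (b0 t ht).1
  have hbd : ∀ ξ, wk k ξ * nm (fun t ξ => nl (a t) (b t) ξ) t ξ ≤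
      40 * (wk (k + 1) ξ * cv (nm a t) (nm b t) ξ) := by
    intro ξ
    calc wk k ξ * nm (fun t ξ => nl (a t) (b t) ξ) t ξ
        ≤ wk k ξ * (40 * nw ξ * cv (nm a t) (nm b t) ξ) := by
          gcongr
          exact hNLB (a t) (b t) ξ
      _ = 40 * ((wk k ξ * nw ξ) * cv (nm a t) (nm b t) ξ) := by ring
      _ ≤ _ := by
          gcongr
          exact wk_nw k ξ
  push_cast
  constructor
  · calc ∫⁻ ξ, wk k ξ * nm (fun t ξ => nl (a t) (b t) ξ) t ξ
        ≤ ∫⁻ ξ, 40 * (wk (k + 1) ξ * cv (nm a t) (nm b t) ξ) := lintegral_mono hbd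
      _ = 40 * ∫⁻ ξ, wk (k + 1) ξ * cv (nm a t) (nm b t) ξ := lintegral_const_mul' _ _ (by simp)
      _ ≤ _ := by
          gcongr
          refine ((hWK1 _ _ hmt hmt').1 (k + 1)).trans ?_
          gcongr
          · exact (a1 t ht).1
          · exact (b1 t ht).1
  · intro ξ
    refine (hbd ξ).trans ?_
    refine mul_le_mul' le_rfl ?_
    refine ((hWK1 _ _ hmt hmt').2.1 (k + 1) A1 B1 (a1 t ht).2 (b1 t ht).2 ξ).trans ?_
    gcongr

end Pool.Agent.Run7.h534.AX
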